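import Pool.Agent.KS6_11.BifLG.Main
import Pool.Agent.KS6_11.BifLG.Two

/-!
# The variety of local groups and the finite maximal bifix codes over two letters

Schützenberger's question is whether the `+`-variety of languages of the local groups is described
by its finite prefix codes. We show that it is the smallest `+`-variety which contains the languages
`P⁺` for the finite bifix codes `P` over the two-letter alphabet that are maximal prefix codes, and
that for all such codes, over all alphabets, `P⁺` does belong to it. Alphabets are the sets `Fin k`.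
-/

set_option autoImplicit false

namespace Pool.Agent.Results.MP_df6b17_lc.MaximalBifixCodes

/-- A local group: `e S e` is a group for every idempotent `e`. -/
def IsLocalGroup (S : Type) [Semigroup S] : Prop :=
  ∀ e : S, e * e = e → ∀ x : S, ∃ y : S,
    (e * x * e) * (e * y * e) = e ∧ (e * y * e) * (e * x * e) = e

/-- The languages of nonempty words over `Fin k` which are recognized by a finite local group:
the class `𝒱(A⁺)` for the alphabet `A = Fin k`. The value of `φ` at the empty word is irrelevant. -/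
def LG (k : ℕ) : Set (Set (List (Fin k))) :=
  {L | ∃ (S : Type) (_ : Semigroup S) (_ : Finite S), IsLocalGroup S ∧
    ∃ φ : List (Fin k) → S, (∀ u v : List (Fin k), u ≠ [] → v ≠ [] → φ (u ++ v) = φ u * φ v) ∧
      ∃ X : Set S, L = {w | w ≠ [] ∧ φ w ∈ X}}

/-- The closure properties of a `+`-variety of languages: finite Boolean operations (with respect to
the set of the nonempty words), left and right quotients, and inverse images under morphisms of free
semigroups. It is not required that the members be recognizable. -/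
structure IsPlusVariety (W : (k : ℕ) → Set (Set (List (Fin k)))) : Prop where
  empty : ∀ k, (∅ : Set (List (Fin k))) ∈ W k
  compl : ∀ k, ∀ L ∈ W k, {w : List (Fin k) | w ≠ [] ∧ w ∉ L} ∈ W k
  union : ∀ k, ∀ L ∈ W k, ∀ K ∈ W k, L ∪ K ∈ W k
  quotient : ∀ k, ∀ L ∈ W k, ∀ u : List (Fin k),
    {w : List (Fin k) | w ≠ [] ∧ u ++ w ∈ L} ∈ W k ∧ {w : List (Fin k) | w ≠ [] ∧ w ++ u ∈ L} ∈ W k
  inverse : ∀ (k m : ℕ) (φ : Fin m → List (Fin k)), (∀ a, φ a ≠ []) →
    ∀ L ∈ W k, {w : List (Fin m) | w ≠ [] ∧ w.flatMap φ ∈ L} ∈ W m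

/-- A finite bifix code which is a maximal prefix code: the empty word is not in `P`, no word of `P`
is a proper prefix or a proper suffix of another one, and every word is comparable with a word of
`P` in the prefix order. Such a code is a maximal bifix code. -/
def IsMaxBifix {k : ℕ} (P : Finset (List (Fin k))) : Prop :=
  [] ∉ P ∧ (∀ p ∈ P, ∀ q ∈ P, p <+: q → p = q) ∧ (∀ p ∈ P, ∀ q ∈ P, p <:+ q → p = q) ∧
    ∀ w : List (Fin k), ∃ p ∈ P, p <+: w ∨ w <+: p

/-- The language `P⁺` of the products of one or more words of `P`. -/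
def plusLang {k : ℕ} (P : Finset (List (Fin k))) : Set (List (Fin k)) :=
  {w | ∃ l : List (List (Fin k)), l ≠ [] ∧ (∀ p ∈ l, p ∈ P) ∧ w = l.flatten}

lemma localGroup_prod {S T : Type} [Semigroup S] [Semigroup T] (hS : IsLocalGroup S)
    (hT : IsLocalGroup T) : IsLocalGroup (S × T) := by
  rintro ⟨e, f⟩ he ⟨x, y⟩
  obtain ⟨a, h1, h2⟩ := hS e (congrArg Prod.fst he) x
  obtain ⟨b, h3, h4⟩ := hT f (congrArg Prod.snd he) y
  exact ⟨(a, b), Prod.ext h1 h3, Prod.ext h2 h4⟩

lemma isPlusVariety_LG : IsPlusVariety LG where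
  empty k := ⟨PUnit, inferInstance, inferInstance, fun _ _ x => ⟨x, rfl, rfl⟩, fun _ => PUnit.unit,
    fun _ _ _ _ => rfl, ∅, by ext w; simp⟩
  compl := by
    rintro k _ ⟨S, _, _, hS, φ, hφ, X, rfl⟩
    refine ⟨S, inferInstance, inferInstance, hS, φ, hφ, Xᶜ, ?_⟩
    ext w
    simp only [Set.mem_ofPred_eq, Set.mem_compl_iff]
    tauto
  union := by
    rintro k _ ⟨S, _, _, hS, φ, hφ, X, rfl⟩ _ ⟨T, _, _, hT, ψ, hψ, Y, rfl⟩
    refine ⟨S × T, inferInstance, inferInstance, localGroup_prod hS hT, fun w => (φ w, ψ w),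
      fun u v hu hv => Prod.ext (hφ u v hu hv) (hψ u v hu hv), {s | s.1 ∈ X ∨ s.2 ∈ Y}, ?_⟩
    ext w
    simp only [Set.mem_union, Set.mem_ofPred_eq]
    tauto
  quotient := by
    rintro k _ ⟨S, _, _, hS, φ, hφ, X, rfl⟩ u
    by_cases hu : u = []
    · subst hu
      refine ⟨⟨S, inferInstance, inferInstance, hS, φ, hφ, X, ?_⟩,
        ⟨S, inferInstance, inferInstance, hS, φ, hφ, X, ?_⟩⟩
      · ext w
        simp only [Set.mem_ofPred_eq, List.nil_append]
        tauto
      · ext w
        simp only [Set.mem_ofPred_eq, List.append_nil]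
        tauto
    · refine ⟨⟨S, inferInstance, inferInstance, hS, φ, hφ, {s | φ u * s ∈ X}, ?_⟩,
        ⟨S, inferInstance, inferInstance, hS, φ, hφ, {s | s * φ u ∈ X}, ?_⟩⟩
      · ext w
        simp only [Set.mem_ofPred_eq]
        constructor
        · rintro ⟨h1, -, h2⟩
          rw [hφ u w hu h1] at h2
          exact ⟨h1, h2⟩
        · rintro ⟨h1, h2⟩
          rw [← hφ u w hu h1] at h2
          exact ⟨h1, by simp [h1], h2⟩
      · ext w
        simp only [Set.mem_ofPred_eq]
        constructor
        · rintro ⟨h1, -, h2⟩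
          rw [hφ w u h1 hu] at h2
          exact ⟨h1, h2⟩
        · rintro ⟨h1, h2⟩
          rw [← hφ w u h1 hu] at h2
          exact ⟨h1, by simp [h1], h2⟩
  inverse := by
    rintro k m θ hθ _ ⟨S, _, _, hS, φ, hφ, X, rfl⟩
    have hne : ∀ w : List (Fin m), w ≠ [] → w.flatMap θ ≠ [] := by
      intro w hw h
      cases w with
      | nil => exact hw rfl
      | cons a w =>
        rw [List.flatMap_cons] at h
        exact hθ a (List.append_eq_nil_iff.1 h).1
    refine ⟨S, inferInstance, inferInstance, hS, fun w => φ (w.flatMap θ), ?_, X, ?_⟩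
    · intro u v hu hv
      show φ ((u ++ v).flatMap θ) = _
      rw [List.flatMap_append, hφ _ _ (hne u hu) (hne v hv)]
    · ext w
      simp only [Set.mem_ofPred_eq]
      constructor
      · rintro ⟨h1, -, h2⟩; exact ⟨h1, h2⟩
      · rintro ⟨h1, h2⟩; exact ⟨h1, hne w h1, h2⟩

lemma plusLang_mem_LG {k : ℕ} {P : Finset (List (Fin k))} (hP : IsMaxBifix P) :
    plusLang P ∈ LG k := by
  obtain ⟨h0, h1, h2, h3⟩ := hP
  have hB : Pool.Agent.R544.LG.Bif (P : Set (List (Fin k))) (P.sup List.length + 1) := by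
    refine ⟨h0, h1, h2, fun w hw => ?_⟩
    obtain ⟨p, hp, h | h⟩ := h3 w
    · exact ⟨p, hp, h⟩
    · exfalso
      have h4 := h.length_le
      have h5 : p.length ≤ P.sup List.length := Finset.le_sup (f := List.length) hp
      omega
  obtain ⟨S, i1, i2, hS, φ, hφ, X, hX⟩ := Pool.Agent.R544.LG.recognized hB (id : Fin k → Fin k)
    Function.injective_id Function.surjective_id
  refine ⟨S, i1, i2, hS, φ, hφ, X, ?_⟩
  rw [← hX]
  ext w
  rw [Set.mem_ofPred_eq, List.map_id]
  rfl

/-- The `+`-variety of languages of the local groups is the smallest `+`-variety which contains the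
languages `P⁺` for the finite maximal bifix codes `P` over the two-letter alphabet. More precisely:
(1) it is a `+`-variety; (2) it contains `P⁺` for all finite bifix codes `P` that are maximal prefix
codes, over all alphabets; (3) it is contained in every `+`-variety that contains `P⁺` for all these
codes `P` over the alphabet `Fin 2`. -/
theorem result :
    IsPlusVariety LG ∧
    (∀ (k : ℕ) (P : Finset (List (Fin k))), IsMaxBifix P → plusLang P ∈ LG k) ∧
    ∀ W : (k : ℕ) → Set (Set (List (Fin k))), IsPlusVariety W →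
      (∀ P : Finset (List (Fin 2)), IsMaxBifix P → plusLang P ∈ W 2) → ∀ n, LG n ⊆ W n := by
  refine ⟨isPlusVariety_LG, fun k P hP => plusLang_mem_LG hP, fun W hW hP n L hL => ?_⟩
  refine Pool.Agent.KS6_11.BifLG.main W hW.empty hW.compl hW.union hW.quotient hW.inverse
    (fun k P h0 h1 h2 h3 => ?_) n L hL
  obtain ⟨P', ψ, g0, g1, g2, g3, g4, g5⟩ := Pool.Agent.KS6_11.BifLG.two P h0 h1 h2 h3
  have g6 := hW.inverse 2 k ψ g4 _ (hP P' ⟨g0, g1, g2, g3⟩)
  have g7 : {w : List (Fin k) | ∃ l : List (List (Fin k)),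
      l ≠ [] ∧ (∀ p ∈ l, p ∈ P) ∧ w = l.flatten} = {w : List (Fin k) | w ≠ [] ∧
        w.flatMap ψ ∈ plusLang P'} := g5
  rw [g7]
  exact g6

end Pool.Agent.Results.MP_df6b17_lc.MaximalBifixCodes
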